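import Pool.Agent.H20.MD.Push
import Pool.Agent.H20.MD.Mac

/-!
# MP_c1987c_gt: the macroscopic dimension of a covering of a space with a modification which fibres with small fibres

`M` is a compact Hausdorff space with a regular covering `p : X → M` whose deck transformations are isometries of the metric space `X` (for instance a closed Riemannian manifold and its
universal cover), `q : M' → M` is a modification of `M` over the closed set `Z`, `f : M' → B` is a map all of whose fibres are small (they have neighbourhoods over which the covering splits
into pieces of bounded diameter), the exceptional set `q ⁻¹ Z` is the union of closed sets `E i`, and `g i : E i → Q` are maps with small fibres.  If the images of the exceptional set under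
pairs of the maps `f`, `g`, `q` are small-dimensional then the macroscopic dimension of `X` is at most the maximum of the dimensions of `B`, `Z` and `Q` (the number `e + 2` below).

Application (not formalised): `M` a uniruled smooth projective variety of complex dimension `n ≥ 2`, `e = 2 n - 4`, `X` the universal cover of `M`.  `B` is a smooth model of the base of the
maximally rationally connected fibration, `M'` a smooth projective modification of `M` on which the fibration is a morphism `f`; the fibres of `f` have trivial image in the
fundamental group (Kollár), `B` has complex dimension at most `n - 1`, `Z` at most `n - 2`.  `E i` are the exceptional divisors, `q (E i)` and `f (E i)` have complex dimension at most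
`n - 2`.  For a divisor on which `(f, q)` is not generically finite, `g i = (f, q)`; for the others `g i` is the Shafarevich map of the divisor for the homomorphism to the fundamental group of
`M`, regular and with fibres of finite image after a further modification of `M'`, whose new exceptional divisors are of the first kind.
-/

set_option autoImplicit false

open Set Topology

namespace Pool.Agent.Results.MP_c1987c_gt.ModificationBound

open Pool.Agent.H20.MD

theorem result {X M M' B Q : Type} [PseudoMetricSpace X] [TopologicalSpace M] [CompactSpace M] [T2Space M] [TopologicalSpace M'] [CompactSpace M'] [T2Space M']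
    [TopologicalSpace B] [CompactSpace B] [T2Space B] [TopologicalSpace Q] [CompactSpace Q] [T2Space Q] {m e : ℕ} (p : X → M) (hp : IsCov p) (S : Modif M M' B Q m)
    (small_f : ∀ b : B, ∃ N : Set M', IsOpen N ∧ S.f ⁻¹' {b} ⊆ N ∧ Small p (S.q '' N \ S.Z))
    (small_g : ∀ c : Q, ∃ N : Set M', IsOpen N ∧ (∀ i, S.E i ∩ S.g i ⁻¹' {c} ⊆ N) ∧ Small p (S.q '' N \ S.Z))
    (dim_B : DimLE B (e + 2)) (dim_Z : DimLE S.Z (e + 2)) (dim_Q : DimLE Q (e + 2))
    (dim_BQ : ∀ i, DimLE ((fun x => (S.f x, S.g i x)) '' S.E i) (e + 1))
    (dim_QZ : ∀ i, DimLE ((fun x => (S.g i x, S.q x)) '' S.E i) (e + 1))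
    (dim_BZ : DimLE ((fun x => (S.f x, S.q x)) '' S.D) (e + 1))
    (dim_BQZ : ∀ i, DimLE ((fun x => (S.f x, S.g i x, S.q x)) '' (S.D ∩ S.E i)) e) :
    MacroDimLE X (e + 2) := by
  obtain ⟨T⟩ := S.exists_ext
  obtain ⟨n, V, h1, h2, h3, h4⟩ := Modif.push T (Modif.dimK T dim_B dim_Z dim_Q dim_BQ dim_QZ dim_BZ dim_BQZ) (Small p)
    (fun V V' ho h hV => Small.mono hp.continuous ho h hV) (Modif.good_of T (Small p) small_f small_g hp.small)
  exact macro_of hp.continuous V h1 h2 h3 h4

end Pool.Agent.Results.MP_c1987c_gt.ModificationBound
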